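import Pool.Agent.X26.LF.Stm

set_option autoImplicit false

namespace Pool.Agent.X157.LF

open Finset Pool.Agent.X26.LF

/-- coefficient vector -/
def cf {m N p : ℕ} (u : Fin m → ZMod p) (ι : Fin m ↪ Fin N) : Fin N → ZMod p :=
  fun i => ∑ j, if ι j = i then u j else 0

theorem cf_sum {m N p : ℕ} (u : Fin m → ZMod p) (ι : Fin m ↪ Fin N) (x : Fin N → ZMod p) :
    ∑ i, cf u ι i * x i = ∑ j, u j * x (ι j) := by
  unfold cf
  simp_rw [Finset.sum_mul]
  rw [Finset.sum_comm]
  refine Finset.sum_congr rfl fun j _ => ?_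
  simp [ite_mul]

theorem cf_at {m N p : ℕ} (u : Fin m → ZMod p) (ι : Fin m ↪ Fin N) (j : Fin m) :
    cf u ι (ι j) = u j := by
  unfold cf
  simp

theorem cf_off {m N p : ℕ} (u : Fin m → ZMod p) (ι : Fin m ↪ Fin N) (i : Fin N)
    (h : ∀ k, ι k ≠ i) : cf u ι i = 0 := by
  unfold cf
  exact Finset.sum_eq_zero fun j _ => if_neg (h j)

theorem final {T Q Z G F p A B : ℕ} (hT : 8 * F * p ≤ T) (hF : 0 < F) (hp : 0 < p)
    (hQ : 0 < Q) (hG : G + Z = Q) (h1 : p * A = T * Q) (h2 : p ^ 2 * B ≤ (T ^ 2 + T * F * p) * Q)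
    (h3 : A ^ 2 ≤ G * B) : 8 * Z ≤ Q := by
  have hFp : 0 < F * p := Nat.mul_pos hF hp
  have hT0 : 0 < T := by nlinarith
  have e1 : (T * Q) * (T * Q) ≤ G * ((T ^ 2 + T * F * p) * Q) := by
    calc (T * Q) * (T * Q) = p ^ 2 * A ^ 2 := by rw [← h1]; ring
      _ ≤ p ^ 2 * (G * B) := Nat.mul_le_mul_left _ h3
      _ = G * (p ^ 2 * B) := by ring
      _ ≤ G * ((T ^ 2 + T * F * p) * Q) := Nat.mul_le_mul_left _ h2
  have e2 : (T * Q) * (T * Q) = (T * Q) * (T * Q) := rfl
  have e3 : (T * Q) * (T * Q) ≤ (T * Q) * (G * (T + F * p)) := by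
    calc (T * Q) * (T * Q) ≤ G * ((T ^ 2 + T * F * p) * Q) := e1
      _ = (T * Q) * (G * (T + F * p)) := by ring
  have e4 : T * Q ≤ G * (T + F * p) := Nat.le_of_mul_le_mul_left e3 (Nat.mul_pos hT0 hQ)
  have e5 : T * (G + Z) ≤ G * (T + F * p) := by rw [hG]; exact e4
  have e6 : T * Z ≤ G * (F * p) := by nlinarith
  have e7 : G * (F * p) ≤ Q * (F * p) := Nat.mul_le_mul_right _ (by omega)
  have e8 : (F * p) * (8 * Z) ≤ (F * p) * Q := by
    calc (F * p) * (8 * Z) = (8 * F * p) * Z := by ring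
      _ ≤ T * Z := Nat.mul_le_mul_right _ hT
      _ ≤ Q * (F * p) := e6.trans e7
      _ = (F * p) * Q := by ring
  exact Nat.le_of_mul_le_mul_left e8 hFp

open Classical in
theorem t_SM (hC : S_CNT) : S_SM := by
  intro m p N _ u s hm hu hT
  have hp : 0 < p := (Fact.out : p.Prime).pos
  obtain ⟨j0⟩ : Nonempty (Fin m) := ⟨⟨0, by omega⟩⟩
  have hc0 : ∀ ι : Fin m ↪ Fin N, cf u ι ≠ 0 := fun ι h => by
    have h1 := congrFun h (ι j0)
    rw [cf_at] at h1
    exact hu j0 h1
  have hcard : Fintype.card (Fin m ↪ Fin N) = N.descFactorial m := by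
    rw [Fintype.card_embedding_eq, Fintype.card_fin, Fintype.card_fin]
  obtain ⟨X, hX⟩ : ∃ X : (Fin N → ZMod p) → ℕ, X = fun x =>
      (univ.filter fun ι : Fin m ↪ Fin N => ∑ j, u j * x (ι j) = s).card := ⟨_, rfl⟩
  have hXx : ∀ x, X x = ∑ ι : Fin m ↪ Fin N, if ∑ j, u j * x (ι j) = s then 1 else 0 := by
    intro x
    rw [hX]
    simp only [Finset.card_filter]
  have h1 : p * ∑ x, X x = N.descFactorial m * p ^ N := by
    simp_rw [hXx]
    rw [Finset.sum_comm, Finset.mul_sum]
    have h2 : ∀ ι ∈ (univ : Finset (Fin m ↪ Fin N)),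
        p * ∑ x : Fin N → ZMod p, (if ∑ j, u j * x (ι j) = s then 1 else 0) = p ^ N := by
      intro ι _
      have h3 := (hC p N (cf u ι) 0 s 0 (hc0 ι)).1
      rw [← Finset.card_filter]
      simp_rw [cf_sum] at h3
      exact h3
    rw [Finset.sum_congr rfl h2, Finset.sum_const, Finset.card_univ, hcard, smul_eq_mul]
  have h2 : p ^ 2 * ∑ x, X x ^ 2 ≤
      (N.descFactorial m ^ 2 + N.descFactorial m * m.factorial * p) * p ^ N := by
    have e1 : ∀ x, X x ^ 2 = ∑ ι : Fin m ↪ Fin N, ∑ ι' : Fin m ↪ Fin N,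
        if (∑ j, u j * x (ι j) = s ∧ ∑ j, u j * x (ι' j) = s) then 1 else 0 := by
      intro x
      rw [sq, hXx, Finset.sum_mul_sum]
      refine Finset.sum_congr rfl fun ι _ => Finset.sum_congr rfl fun ι' _ => ?_
      by_cases ha : ∑ j, u j * x (ι j) = s <;> by_cases hb : ∑ j, u j * x (ι' j) = s <;>
        simp [ha, hb]
    simp_rw [e1]
    rw [Finset.sum_comm]
    have e2 : ∀ ι : Fin m ↪ Fin N, p ^ 2 * ∑ x : Fin N → ZMod p, ∑ ι' : Fin m ↪ Fin N,
        (if (∑ j, u j * x (ι j) = s ∧ ∑ j, u j * x (ι' j) = s) then 1 else 0) ≤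
        N.descFactorial m * p ^ N + m.factorial * (p * p ^ N) := by
      intro ι
      rw [Finset.sum_comm, Finset.mul_sum]
      have e3 : ∀ ι' ∈ (univ : Finset (Fin m ↪ Fin N)), p ^ 2 * ∑ x : Fin N → ZMod p,
          (if (∑ j, u j * x (ι j) = s ∧ ∑ j, u j * x (ι' j) = s) then 1 else 0) ≤
          p ^ N + (if (∀ j, ∃ k, ι k = ι' j) then p * p ^ N else 0) := by
        intro ι' _
        rw [← Finset.card_filter]
        by_cases hd : ∃ l, cf u ι' = fun i => l * cf u ι i
        · obtain ⟨l, hl⟩ := hd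
          have hr : ∀ j, ∃ k, ι k = ι' j := by
            intro j
            by_contra hcon
            push Not at hcon
            have h5 := congrFun hl (ι' j)
            rw [cf_at] at h5
            simp only [cf_off u ι (ι' j) hcon, mul_zero] at h5
            exact hu j h5
          rw [if_pos hr]
          have h3 := (hC p N (cf u ι) 0 s 0 (hc0 ι)).1
          simp_rw [cf_sum] at h3
          have h4 : (univ.filter fun x : Fin N → ZMod p =>
              ∑ j, u j * x (ι j) = s ∧ ∑ j, u j * x (ι' j) = s).card ≤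
              (univ.filter fun x : Fin N → ZMod p => ∑ j, u j * x (ι j) = s).card :=
            Finset.card_le_card fun x hx => by
              simp only [Finset.mem_filter, Finset.mem_univ, true_and] at hx ⊢
              exact hx.1
          calc p ^ 2 * _ ≤ p ^ 2 * _ := Nat.mul_le_mul_left _ h4
            _ = p * (p * (univ.filter fun x : Fin N → ZMod p =>
                ∑ j, u j * x (ι j) = s).card) := by ring
            _ = p * p ^ N := by rw [h3]
            _ ≤ p ^ N + p * p ^ N := Nat.le_add_left _ _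
        · have h3 := (hC p N (cf u ι) (cf u ι') s s (hc0 ι)).2 hd
          simp_rw [cf_sum] at h3
          rw [h3]
          exact Nat.le_add_right _ _
      refine (Finset.sum_le_sum e3).trans ?_
      rw [Finset.sum_add_distrib, Finset.sum_const, Finset.card_univ, hcard, smul_eq_mul,
        ← Finset.sum_filter, Finset.sum_const, smul_eq_mul]
      refine Nat.add_le_add_left (Nat.mul_le_mul_right _ ?_) _
      have e4 : (univ.filter fun ι' : Fin m ↪ Fin N => ∀ j, ∃ k, ι k = ι' j) ⊆
          (univ : Finset (Fin m ↪ Fin m)).image fun σ => σ.trans ι := by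
        intro ι' hι'
        simp only [Finset.mem_filter, Finset.mem_univ, true_and] at hι'
        choose f hf using hι'
        have hfi : Function.Injective f := fun a b hab => by
          apply ι'.injective
          rw [← hf a, ← hf b, hab]
        refine Finset.mem_image.2 ⟨⟨f, hfi⟩, Finset.mem_univ _, ?_⟩
        ext j
        simp [hf]
      refine (Finset.card_le_card e4).trans (Finset.card_image_le.trans ?_)
      rw [Finset.card_univ, Fintype.card_embedding_eq, Fintype.card_fin,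
        Nat.descFactorial_self]
    rw [Finset.mul_sum]
    refine (Finset.sum_le_sum fun ι _ => e2 ι).trans ?_
    rw [Finset.sum_const, Finset.card_univ, hcard, smul_eq_mul]
    apply le_of_eq
    ring
  have h3 : (∑ x, X x) ^ 2 ≤ (univ.filter fun x => X x ≠ 0).card * ∑ x, X x ^ 2 := by
    have e1 : ∑ x, X x = ∑ x ∈ univ.filter (fun x => X x ≠ 0), X x :=
      (Finset.sum_filter_ne_zero _).symm
    rw [e1]
    refine sq_sum_le_card_mul_sum_sq.trans (Nat.mul_le_mul_left _ ?_)
    exact Finset.sum_le_sum_of_subset (Finset.filter_subset _ _)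
  have h4 : (univ.filter fun x => X x ≠ 0).card + (univ.filter fun x : Fin N → ZMod p =>
    ¬ ∃ ι : Fin m ↪ Fin N, ∑ j, u j * x (ι j) = s).card = p ^ N := by
    have e1 : (univ.filter fun x : Fin N → ZMod p =>
        ¬ ∃ ι : Fin m ↪ Fin N, ∑ j, u j * x (ι j) = s) = univ.filter fun x => ¬ X x ≠ 0 := by
      ext x
      simp only [Finset.mem_filter, Finset.mem_univ, true_and, not_not, not_exists]
      rw [hX]
      simp only [Finset.card_eq_zero, Finset.filter_eq_empty_iff, Finset.mem_univ, true_implies]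
    rw [e1, Finset.card_filter_add_card_filter_not, Finset.card_univ]
    simp [ZMod.card]
  exact final hT (Nat.factorial_pos m) hp (pow_pos hp N) h4 h1 h2 h3

end Pool.Agent.X157.LF
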